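import Mathlib

/-!
# MP_c85533_co: flat self-dual regular polytopes are not medial sections of internally self-dual
regular polytopes

A regular polytope `K` is flat if every vertex is incident with every facet; in terms of its string
C-group `⟨k₀, …, k_{m-1}⟩` this says that the group is the product of the subgroups
`⟨k₁, …, k_{m-1}⟩` (stabiliser of the base vertex) and `⟨k₀, …, k_{m-2}⟩` (stabiliser of the base
facet).  If the medial section of a regular `(m+2)`-polytope with group `⟨ρ₀, …, ρ_{m+1}⟩` is flat,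
then the subgroup generated by the conjugates of `ρ₀` under `⟨ρ₁, …, ρ_m⟩` is contained in
`⟨ρ₀, …, ρ_{m-1}⟩` and is normal, hence no element of the group conjugates `ρ₀` to `ρ_{m+1}`.
The toroidal map `{4,4}_{(2,0)}` is flat and self-dual.
-/

namespace Pool.Agent.Results.MP_c85533_co.FlatMedialSections

/-- The group generated by a tuple of elements. -/
def Gam {G : Type*} [Group G] {n : ℕ} (r : Fin n → G) : Subgroup G :=
  Subgroup.closure (Set.range r)

/-- A tuple `ρ₀, …, ρ_{n-1}` of group elements is a string C-group of rank `n` (of the group it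
generates): involutions, generators with indices at distance at least `2` commute, and the
intersection property. -/
structure IsStringCGroup {G : Type*} [Group G] {n : ℕ} (r : Fin n → G) : Prop where
  invol : ∀ i, orderOf (r i) = 2
  comm : ∀ i j : Fin n, (i : ℕ) + 2 ≤ j → r i * r j = r j * r i
  inter : ∀ I J : Set (Fin n),
    Subgroup.closure (r '' I) ⊓ Subgroup.closure (r '' J) = Subgroup.closure (r '' (I ∩ J))

/-- Some element `g` of the group satisfies `g ρᵢ = ρ_{n-1-i} g` for all `i`. -/
def InternallySelfDual {G : Type*} [Group G] {n : ℕ} (r : Fin n → G) : Prop :=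
  ∃ g ∈ Gam r, ∀ i, g * r i = r (Fin.rev i) * g

/-- Isomorphism of the groups generated by two tuples, matching the generators. -/
def Isomorphic {G H : Type*} [Group G] [Group H] {n : ℕ} (r : Fin n → G) (s : Fin n → H) : Prop :=
  ∃ e : Gam r ≃* Gam s, ∀ (i : Fin n) (h : r i ∈ Gam r), (e ⟨r i, h⟩ : H) = s i

/-- Self-duality: the tuple is isomorphic to the reversed tuple. -/
def SelfDual {G : Type*} [Group G] {n : ℕ} (r : Fin n → G) : Prop :=
  Isomorphic r (fun i => r (Fin.rev i))

/-- The generators `ρ₁, …, ρ_m` of the medial section of a regular `(m+2)`-polytope. -/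
def mid {G : Type*} {m : ℕ} (r : Fin (m + 2) → G) : Fin m → G := fun i => r i.castSucc.succ

/-- Flatness: every element of the group is a product of an element of the subgroup generated by
all generators but the first and an element of the subgroup generated by all but the last. -/
def Flat {G : Type*} [Group G] {m : ℕ} (k : Fin m → G) : Prop :=
  ∀ h ∈ Gam k, ∃ a ∈ Subgroup.closure (k '' {i | (i : ℕ) ≠ 0}),
    ∃ b ∈ Subgroup.closure (k '' {i | (i : ℕ) + 1 ≠ m}), h = a * b

section general
variable {G : Type*} [Group G] {m : ℕ}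

theorem commute_closure {S : Set G} {x g : G} (hS : ∀ s ∈ S, x * s = s * x)
    (hg : g ∈ Subgroup.closure S) : x * g = g * x := by
  induction hg using Subgroup.closure_induction with
  | mem y hy => exact hS y hy
  | one => simp
  | mul a b _ _ ha hb => rw [← mul_assoc, ha, mul_assoc, hb, mul_assoc]
  | inv a _ ha =>
    have : Commute x a := ha
    exact this.inv_right

/-- The subgroup generated by the conjugates of `ρ₀` under the medial group. -/
def conjSub (r : Fin (m + 2) → G) : Subgroup G :=
  Subgroup.closure {x | ∃ h ∈ Gam (mid r), x = h * r 0 * h⁻¹}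

theorem conj_mem {N : Subgroup G} {S : Set G} (hN : N = Subgroup.closure S) {y : G}
    (hy : ∀ s ∈ S, y * s * y⁻¹ ∈ N) {x : G} (hx : x ∈ N) : y * x * y⁻¹ ∈ N := by
  subst hN
  induction hx using Subgroup.closure_induction with
  | mem s hs => exact hy s hs
  | one => simp
  | mul a b _ _ ha hb =>
    have := mul_mem ha hb
    have e : y * a * y⁻¹ * (y * b * y⁻¹) = y * (a * b) * y⁻¹ := by group
    rwa [e] at this
  | inv a _ ha =>
    have := inv_mem ha
    have e : (y * a * y⁻¹)⁻¹ = y * a⁻¹ * y⁻¹ := by group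
    rwa [e] at this

/-- **Main lemma.**  If the medial section is flat, the polytope is not internally self-dual. -/
theorem not_internal (hm : m ≠ 0) {r : Fin (m + 2) → G} (hr : IsStringCGroup r)
    (hflat : Flat (mid r)) : ¬ InternallySelfDual r := by
  rintro ⟨g, hg, hdual⟩
  -- A = the subgroup generated by ρ_i, i < m
  set A : Subgroup G := Subgroup.closure (r '' {i | (i : ℕ) < m}) with hA
  set N : Subgroup G := conjSub r with hNdef
  -- ρ₀ commutes with the stabiliser of the base vertex of the medial section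
  have h0comm : ∀ a ∈ Subgroup.closure (mid r '' {i | (i : ℕ) ≠ 0}), r 0 * a = a * r 0 := by
    intro a ha
    refine commute_closure ?_ ha
    rintro _ ⟨i, hi, rfl⟩
    refine hr.comm 0 i.castSucc.succ ?_
    have : (i : ℕ) ≠ 0 := hi
    simp only [Fin.val_zero, Fin.val_succ, Fin.val_castSucc]
    omega
  -- the other factor lies in A
  have hBA : ∀ b ∈ Subgroup.closure (mid r '' {i | (i : ℕ) + 1 ≠ m}), b ∈ A := by
    intro b hb
    refine (Subgroup.closure_mono ?_) hb
    rintro _ ⟨i, hi, rfl⟩
    refine ⟨i.castSucc.succ, ?_, rfl⟩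
    have h1 : (i : ℕ) + 1 ≠ m := hi
    have h2 := i.isLt
    simp only [Set.mem_ofPred_eq, Fin.val_succ, Fin.val_castSucc]
    omega
  have h0A : r 0 ∈ A := Subgroup.subset_closure ⟨0, Nat.pos_of_ne_zero hm, rfl⟩
  have hNA : N ≤ A := by
    rw [hNdef, conjSub, Subgroup.closure_le]
    rintro _ ⟨h, hh, rfl⟩
    obtain ⟨a, ha, b, hb, hab⟩ := hflat h⁻¹ (inv_mem hh)
    have hh2 : h = b⁻¹ * a⁻¹ := by rw [← mul_inv_rev, ← hab, inv_inv]
    have hc : r 0 * a = a * r 0 := h0comm a ha
    have e : h * r 0 * h⁻¹ = b⁻¹ * r 0 * b := by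
      rw [hh2]
      calc b⁻¹ * a⁻¹ * r 0 * (b⁻¹ * a⁻¹)⁻¹ = b⁻¹ * (a⁻¹ * (r 0 * a)) * b := by group
        _ = b⁻¹ * r 0 * b := by rw [hc]; group
    rw [SetLike.mem_coe, e]
    exact mul_mem (mul_mem (inv_mem (hBA b hb)) h0A) (hBA b hb)
  -- ρ_{m+1} commutes with A
  have hlast : ∀ x ∈ A, r (Fin.last (m + 1)) * x = x * r (Fin.last (m + 1)) := by
    intro x hx
    refine commute_closure ?_ hx
    rintro _ ⟨i, hi, rfl⟩
    refine (hr.comm i (Fin.last (m + 1)) ?_).symm
    have : (i : ℕ) < m := hi
    simp only [Fin.val_last]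
    omega
  have h0N : r 0 ∈ N := Subgroup.subset_closure ⟨1, one_mem _, by simp⟩
  -- N is normalised by the whole group
  have hgen : ∀ i, ∀ x ∈ N, r i * x * (r i)⁻¹ ∈ N := by
    intro i x hx
    by_cases hi0 : i = 0
    · subst hi0
      exact mul_mem (mul_mem h0N hx) (inv_mem h0N)
    by_cases hil : i = Fin.last (m + 1)
    · subst hil
      rw [hlast x (hNA hx), mul_inv_cancel_right]
      exact hx
    · refine conj_mem (N := N) rfl ?_ hx
      rintro _ ⟨h, hh, rfl⟩
      refine Subgroup.subset_closure ⟨r i * h, mul_mem ?_ hh, by group⟩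
      refine Subgroup.subset_closure ?_
      have hi1 : (i : ℕ) ≠ 0 := fun h => hi0 (Fin.ext h)
      have hi2 : (i : ℕ) ≠ m + 1 := fun h => hil (Fin.ext (by simpa using h))
      have hi3 := i.isLt
      refine ⟨⟨(i : ℕ) - 1, by omega⟩, ?_⟩
      unfold mid
      congr 1
      apply Fin.ext
      simp only [Fin.val_succ, Fin.val_castSucc]
      omega
  have hall : ∀ y ∈ Gam r, (∀ x ∈ N, y * x * y⁻¹ ∈ N) ∧ (∀ x ∈ N, y⁻¹ * x * y ∈ N) := by
    intro y hy
    induction hy using Subgroup.closure_induction with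
    | mem s hs =>
      obtain ⟨i, rfl⟩ := hs
      have hinv : (r i)⁻¹ = r i := by
        have h2 := pow_orderOf_eq_one (r i)
        rw [hr.invol i, sq] at h2
        exact inv_eq_of_mul_eq_one_left h2
      refine ⟨hgen i, fun x hx => ?_⟩
      have := hgen i x hx
      rwa [hinv] at this ⊢
    | one => exact ⟨fun x hx => by simpa using hx, fun x hx => by simpa using hx⟩
    | mul a b _ _ ha hb =>
      refine ⟨fun x hx => ?_, fun x hx => ?_⟩
      · have := ha.1 _ (hb.1 x hx)
        have e : a * (b * x * b⁻¹) * a⁻¹ = a * b * x * (a * b)⁻¹ := by group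
        rwa [e] at this
      · have := hb.2 _ (ha.2 x hx)
        have e : b⁻¹ * (a⁻¹ * x * a) * b = (a * b)⁻¹ * x * (a * b) := by group
        rwa [e] at this
    | inv a _ ha =>
      refine ⟨fun x hx => ?_, fun x hx => ?_⟩
      · simpa using ha.2 x hx
      · simpa using ha.1 x hx
  -- the dual of ρ₀ is ρ_{m+1}
  have hrev : r (Fin.last (m + 1)) = g * r 0 * g⁻¹ := by
    rw [hdual 0]
    simp
  have hlA : r (Fin.last (m + 1)) ∈ A := by
    rw [hrev]
    exact hNA ((hall g hg).1 _ h0N)
  have hint := hr.inter {Fin.last (m + 1)} {i | (i : ℕ) < m}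
  have hmem : r (Fin.last (m + 1)) ∈
      Subgroup.closure (r '' {Fin.last (m + 1)}) ⊓ Subgroup.closure (r '' {i | (i : ℕ) < m}) :=
    ⟨Subgroup.subset_closure ⟨_, rfl, rfl⟩, hlA⟩
  rw [hint] at hmem
  have hempty : ({Fin.last (m + 1)} ∩ {i : Fin (m + 2) | (i : ℕ) < m}) = ∅ := by
    ext i
    simp only [Set.mem_inter_iff, Set.mem_singleton_iff, Set.mem_ofPred_eq, Set.mem_empty_iff_false,
      iff_false, not_and]
    rintro rfl
    simp
  rw [hempty, Set.image_empty, Subgroup.closure_empty, Subgroup.mem_bot] at hmem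
  have := hr.invol (Fin.last (m + 1))
  rw [hmem, orderOf_one] at this
  exact absurd this (by norm_num)

end general

section transfer
variable {G H : Type*} [Group G] [Group H] {m : ℕ}

theorem closure_le_gam (k : Fin m → H) (I : Set (Fin m)) : Subgroup.closure (k '' I) ≤ Gam k :=
  Subgroup.closure_mono (Set.image_subset_range _ _)

theorem pull {s : Fin m → G} {k : Fin m → H} (e : Gam s ≃* Gam k)
    (he : ∀ (i : Fin m) (h : s i ∈ Gam s), (e ⟨s i, h⟩ : H) = k i) (I : Set (Fin m)) {x : H}
    (hx : x ∈ Subgroup.closure (k '' I)) :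
    ∃ y : Gam s, (y : G) ∈ Subgroup.closure (s '' I) ∧ (e y : H) = x := by
  induction hx using Subgroup.closure_induction with
  | mem x hx =>
    obtain ⟨i, hi, rfl⟩ := hx
    exact ⟨⟨s i, Subgroup.subset_closure ⟨i, rfl⟩⟩, Subgroup.subset_closure ⟨i, hi, rfl⟩, he i _⟩
  | one => exact ⟨1, one_mem _, by simp⟩
  | mul a b _ _ ha hb =>
    obtain ⟨y, hy, hy'⟩ := ha
    obtain ⟨z, hz, hz'⟩ := hb
    exact ⟨y * z, mul_mem hy hz, by simp [hy', hz']⟩
  | inv a _ ha =>
    obtain ⟨y, hy, hy'⟩ := ha
    exact ⟨y⁻¹, inv_mem hy, by simp [hy']⟩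

/-- Flatness is invariant under isomorphism. -/
theorem flat_of_iso {s : Fin m → G} {k : Fin m → H} (h : Isomorphic s k) (hk : Flat k) :
    Flat s := by
  obtain ⟨e, he⟩ := h
  intro x hx
  obtain ⟨a, ha, b, hb, hab⟩ := hk (e ⟨x, hx⟩) (e ⟨x, hx⟩).2
  obtain ⟨y, hy, hy'⟩ := pull e he _ ha
  obtain ⟨z, hz, hz'⟩ := pull e he _ hb
  refine ⟨y, hy, z, hz, ?_⟩
  have : e ⟨x, hx⟩ = e (y * z) := by
    apply Subtype.ext
    rw [hab, map_mul]
    simp [hy', hz']
  have := e.injective this
  exact congrArg Subtype.val this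

theorem selfDual_of {k : Fin m → G} (E : G ≃* G) (hE : ∀ i, E (k i) = k (Fin.rev i)) :
    SelfDual k := by
  have hmap : (Gam k).map (E : G →* G) = Gam (fun i => k (Fin.rev i)) := by
    unfold Gam
    rw [MonoidHom.map_closure]
    congr 1
    ext x
    constructor
    · rintro ⟨_, ⟨i, rfl⟩, rfl⟩
      exact ⟨i, (hE i).symm⟩
    · rintro ⟨i, rfl⟩
      exact ⟨k i, ⟨i, rfl⟩, hE i⟩
  refine ⟨(E.subgroupMap (Gam k)).trans (MulEquiv.subgroupCongr hmap), ?_⟩
  intro i h
  exact hE i

end transfer

/-! ### Elementary abelian groups -/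

section elementary
variable (m : ℕ)

/-- The standard generators of the elementary abelian group of order `2 ^ m`. -/
def ea (i : Fin m) : Multiplicative (Fin m → ZMod 2) := Multiplicative.ofAdd (Pi.single i 1)

variable {m}

theorem ea_pow_apply (i j : Fin m) (n : ℕ) :
    Multiplicative.toAdd (ea m i ^ n) j = if j = i then (n : ZMod 2) else 0 := by
  rw [toAdd_pow]
  simp only [ea, toAdd_ofAdd, Pi.smul_apply, Pi.single_apply, smul_ite, smul_zero]
  split_ifs <;> simp

theorem ea_prod (x : Multiplicative (Fin m → ZMod 2)) :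
    x = ∏ i, ea m i ^ (Multiplicative.toAdd x i).val := by
  apply Multiplicative.toAdd.injective
  rw [toAdd_prod]
  funext j
  rw [Finset.sum_apply]
  simp only [toAdd_pow, ea, toAdd_ofAdd, Pi.smul_apply, Pi.single_apply, smul_ite, smul_zero]
  rw [Finset.sum_ite_eq]
  simp

theorem ea_mem (I : Set (Fin m)) (x : Multiplicative (Fin m → ZMod 2)) :
    x ∈ Subgroup.closure (ea m '' I) ↔ ∀ i ∉ I, Multiplicative.toAdd x i = 0 := by
  constructor
  · intro hx
    induction hx using Subgroup.closure_induction with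
    | mem x hx =>
      obtain ⟨j, hj, rfl⟩ := hx
      intro i hi
      have : i ≠ j := fun h => hi (h ▸ hj)
      simp [ea, this]
    | one => intro i _; rfl
    | mul a b _ _ ha hb => intro i hi; rw [toAdd_mul, Pi.add_apply, ha i hi, hb i hi, add_zero]
    | inv a _ ha => intro i hi; rw [toAdd_inv, Pi.neg_apply, ha i hi, neg_zero]
  · intro h
    rw [ea_prod x]
    refine Subgroup.prod_mem _ fun i _ => ?_
    by_cases hi : i ∈ I
    · have hmem : ea m i ∈ Subgroup.closure (ea m '' I) := Subgroup.subset_closure ⟨i, hi, rfl⟩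
      exact Subgroup.pow_mem _ hmem _
    · rw [h i hi]
      simp

theorem ea_cgroup : IsStringCGroup (ea m) where
  invol i := by
    have : Fact (Nat.Prime 2) := ⟨Nat.prime_two⟩
    refine orderOf_eq_prime ?_ ?_
    · apply Multiplicative.toAdd.injective
      rw [toAdd_pow]
      funext j
      simp only [ea, toAdd_ofAdd, Pi.smul_apply, toAdd_one, Pi.zero_apply]
      rw [two_nsmul]
      exact CharTwo.add_self_eq_zero _
    · intro h
      have := congrArg (fun z : Multiplicative (Fin m → ZMod 2) => Multiplicative.toAdd z i) h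
      simp [ea] at this
  comm i j _ := mul_comm _ _
  inter I J := by
    ext x
    rw [Subgroup.mem_inf, ea_mem, ea_mem, ea_mem]
    constructor
    · rintro ⟨h1, h2⟩ i hi
      by_cases h : i ∈ I
      · exact h2 i fun h' => hi ⟨h, h'⟩
      · exact h1 i h
    · intro h
      exact ⟨fun i hi => h i fun h' => hi h'.1, fun i hi => h i fun h' => hi h'.2⟩

theorem ea_selfDual : SelfDual (ea m) := by
  refine selfDual_of (AddEquiv.toMultiplicative
    (LinearEquiv.funCongrLeft (ZMod 2) (ZMod 2) (Fin.revPerm (n := m))).toAddEquiv) ?_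
  intro i
  apply Multiplicative.toAdd.injective
  funext j
  change (Pi.single i (1 : ZMod 2) : Fin m → ZMod 2) (Fin.rev j) =
    (Pi.single (Fin.rev i) (1 : ZMod 2) : Fin m → ZMod 2) j
  rw [Pi.single_apply, Pi.single_apply]
  congr 1
  rw [eq_iff_iff]
  constructor
  · intro h; rw [← h, Fin.rev_rev]
  · intro h; rw [h, Fin.rev_rev]

theorem ea_flat (hm : 2 ≤ m) : Flat (ea m) := by
  intro h _
  set z : Fin m := ⟨0, by omega⟩ with hz
  refine ⟨h * (ea m z ^ (Multiplicative.toAdd h z).val)⁻¹, ?_,
    ea m z ^ (Multiplicative.toAdd h z).val, ?_, by group⟩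
  · rw [ea_mem]
    intro i hi
    have hi0 : i = z := by
      apply Fin.ext
      simpa using hi
    subst hi0
    rw [toAdd_mul, toAdd_inv, Pi.add_apply, Pi.neg_apply, ea_pow_apply, if_pos rfl,
      ZMod.natCast_zmod_val, add_neg_cancel]
  · have hmem : ea m z ∈ Subgroup.closure (ea m '' {i | (i : ℕ) + 1 ≠ m}) := by
      refine Subgroup.subset_closure ⟨z, ?_, rfl⟩
      change 0 + 1 ≠ m
      omega
    exact Subgroup.pow_mem _ hmem _

end elementary

/-! ### The toroidal map `{4,4}_{(2,0)}` -/

section torus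

/-- The points on which the group of `{4,4}_{(2,0)}` acts: the torus `(½ℤ / 2ℤ)²`. -/
abbrev Pl : Type := ZMod 4 × ZMod 4

/-- `(X, Y) ↦ (2 - X, Y)`. -/
def t0 : Equiv.Perm Pl :=
  Function.Involutive.toPerm (fun z => (2 - z.1, z.2)) (fun z => Prod.ext (by ring) rfl)

/-- `(X, Y) ↦ (Y, X)`. -/
def t1 : Equiv.Perm Pl :=
  Function.Involutive.toPerm (fun z => (z.2, z.1)) (fun _ => rfl)

/-- `(X, Y) ↦ (X, -Y)`. -/
def t2 : Equiv.Perm Pl :=
  Function.Involutive.toPerm (fun z => (z.1, -z.2)) (fun z => Prod.ext rfl (by ring))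

/-- The generators of the group of `{4,4}_{(2,0)}`. -/
def torus : Fin 3 → Equiv.Perm Pl := ![t0, t1, t2]

/-- Vertex, edge midpoint and face centre of the base flag (in half units). -/
def flagPt : Fin 3 → Pl := ![(0, 0), (1, 0), (1, 1)]

theorem t0_apply (z : Pl) : t0 z = (2 - z.1, z.2) := rfl
theorem t1_apply (z : Pl) : t1 z = (z.2, z.1) := rfl
theorem t2_apply (z : Pl) : t2 z = (z.1, -z.2) := rfl

/-- Affine normal form without interchange of the coordinates. -/
def NF0 (g : Equiv.Perm Pl) (u v a b : ZMod 4) : Prop :=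
  2 * u = 0 ∧ 2 * v = 0 ∧ a * a = 1 ∧ b * b = 1 ∧ ∀ z, g z = (u + a * z.1, v + b * z.2)

/-- Affine normal form with interchange of the coordinates. -/
def NF1 (g : Equiv.Perm Pl) (u v a b : ZMod 4) : Prop :=
  2 * u = 0 ∧ 2 * v = 0 ∧ a * a = 1 ∧ b * b = 1 ∧ ∀ z, g z = (u + a * z.2, v + b * z.1)

def Good (g : Equiv.Perm Pl) : Prop := ∃ u v a b, NF0 g u v a b ∨ NF1 g u v a b

theorem dbl {u a u' : ZMod 4} (h : 2 * u = 0) (h' : 2 * u' = 0) : 2 * (u + a * u') = 0 := by
  linear_combination h + a * h'

theorem sqm {a b : ZMod 4} (h : a * a = 1) (h' : b * b = 1) : (a * b) * (a * b) = 1 := by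
  linear_combination h * (b * b) + h'

theorem good_mul {g h : Equiv.Perm Pl} (hg : Good g) (hh : Good h) : Good (g * h) := by
  obtain ⟨u, v, a, b, ⟨h1, h2, h3, h4, h5⟩ | ⟨h1, h2, h3, h4, h5⟩⟩ := hg <;>
  obtain ⟨u', v', a', b', ⟨k1, k2, k3, k4, k5⟩ | ⟨k1, k2, k3, k4, k5⟩⟩ := hh
  · refine ⟨u + a * u', v + b * v', a * a', b * b', Or.inl ⟨dbl h1 k1, dbl h2 k2, sqm h3 k3,
      sqm h4 k4, fun z => ?_⟩⟩
    rw [Equiv.Perm.mul_apply, k5, h5]
    exact Prod.ext (by ring) (by ring)
  · refine ⟨u + a * u', v + b * v', a * a', b * b', Or.inr ⟨dbl h1 k1, dbl h2 k2, sqm h3 k3,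
      sqm h4 k4, fun z => ?_⟩⟩
    rw [Equiv.Perm.mul_apply, k5, h5]
    exact Prod.ext (by ring) (by ring)
  · refine ⟨u + a * v', v + b * u', a * b', b * a', Or.inr ⟨dbl h1 k2, dbl h2 k1, sqm h3 k4,
      sqm h4 k3, fun z => ?_⟩⟩
    rw [Equiv.Perm.mul_apply, k5, h5]
    exact Prod.ext (by ring) (by ring)
  · refine ⟨u + a * v', v + b * u', a * b', b * a', Or.inl ⟨dbl h1 k2, dbl h2 k1, sqm h3 k4,
      sqm h4 k3, fun z => ?_⟩⟩
    rw [Equiv.Perm.mul_apply, k5, h5]
    exact Prod.ext (by ring) (by ring)

theorem good_inv {g : Equiv.Perm Pl} (hg : Good g) : Good g⁻¹ := by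
  obtain ⟨u, v, a, b, ⟨h1, h2, h3, h4, h5⟩ | ⟨h1, h2, h3, h4, h5⟩⟩ := hg
  · refine ⟨0 + (-a) * u, 0 + (-b) * v, a, b, Or.inl ⟨dbl (by ring) h1, dbl (by ring) h2, h3, h4,
      fun z => ?_⟩⟩
    rw [Equiv.Perm.inv_eq_iff_eq, h5]
    refine Prod.ext ?_ ?_
    · change z.1 = u + a * (0 + (-a) * u + a * z.1)
      linear_combination (u - z.1) * h3
    · change z.2 = v + b * (0 + (-b) * v + b * z.2)
      linear_combination (v - z.2) * h4
  · refine ⟨0 + (-b) * v, 0 + (-a) * u, b, a, Or.inr ⟨dbl (by ring) h2, dbl (by ring) h1, h4, h3,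
      fun z => ?_⟩⟩
    rw [Equiv.Perm.inv_eq_iff_eq, h5]
    refine Prod.ext ?_ ?_
    · change z.1 = u + a * (0 + (-a) * u + a * z.1)
      linear_combination (u - z.1) * h3
    · change z.2 = v + b * (0 + (-b) * v + b * z.2)
      linear_combination (v - z.2) * h4

theorem good_gam {g : Equiv.Perm Pl} (hg : g ∈ Gam torus) : Good g := by
  induction hg using Subgroup.closure_induction with
  | mem x hx =>
    obtain ⟨i, rfl⟩ := hx
    fin_cases i
    · refine ⟨2, 0, -1, 1, Or.inl ⟨by decide, by decide, by decide, by decide, fun z => ?_⟩⟩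
      exact Prod.ext (show (2 : ZMod 4) - z.1 = 2 + -1 * z.1 by ring)
        (show z.2 = 0 + 1 * z.2 by ring)
    · refine ⟨0, 0, 1, 1, Or.inr ⟨by decide, by decide, by decide, by decide, fun z => ?_⟩⟩
      exact Prod.ext (show z.2 = 0 + 1 * z.2 by ring) (show z.1 = 0 + 1 * z.1 by ring)
    · refine ⟨0, 0, 1, -1, Or.inl ⟨by decide, by decide, by decide, by decide, fun z => ?_⟩⟩
      exact Prod.ext (show z.1 = 0 + 1 * z.1 by ring) (show -z.2 = 0 + -1 * z.2 by ring)
  | one =>
    refine ⟨0, 0, 1, 1, Or.inl ⟨by decide, by decide, by decide, by decide, fun z => ?_⟩⟩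
    exact Prod.ext (show z.1 = 0 + 1 * z.1 by ring) (show z.2 = 0 + 1 * z.2 by ring)
  | mul a b _ _ ha hb => exact good_mul ha hb
  | inv a _ ha => exact good_inv ha

theorem unit_cases {a : ZMod 4} (h : a * a = 1) : a = 1 ∨ a = -1 := by
  revert a; decide

theorem zero_cases {a : ZMod 4} (h : 2 * a = 0) : a = 0 ∨ a = 2 := by
  revert a; decide

/-- Generators with index not equal to `j` fix the `j`-th point of the base flag. -/
theorem gen_fix {i j : Fin 3} (h : i ≠ j) : torus i (flagPt j) = flagPt j := by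
  revert i j; decide

theorem fix_of_mem {I : Set (Fin 3)} {g : Equiv.Perm Pl}
    (hg : g ∈ Subgroup.closure (torus '' I)) {j : Fin 3} (hj : j ∉ I) :
    g (flagPt j) = flagPt j := by
  induction hg using Subgroup.closure_induction with
  | mem x hx =>
    obtain ⟨i, hi, rfl⟩ := hx
    exact gen_fix fun h => hj (h ▸ hi)
  | one => rfl
  | mul a b _ _ ha hb => rw [Equiv.Perm.mul_apply, hb, ha]
  | inv a _ ha => rw [Equiv.Perm.inv_eq_iff_eq, ha]

/-- The factor `X ↦ 1 - … ` for the first coordinate. -/
theorem first_mem {S : Subgroup (Equiv.Perm Pl)} {g : Equiv.Perm Pl} {u a : ZMod 4}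
    (hs : t0 ∈ S) (ha : a * a = 1) (hua : u + a = 1)
    (hg : ∀ z : Pl, g z = (u + a * z.1, z.2)) : g ∈ S := by
  rcases unit_cases ha with rfl | rfl
  · have hu : u = 0 := by linear_combination hua
    subst hu
    have : g = 1 := Equiv.ext fun z => by rw [hg]; exact Prod.ext (by simp) rfl
    rw [this]; exact one_mem _
  · have hu : u = 2 := by linear_combination hua
    subst hu
    have : g = t0 := Equiv.ext fun z => by
      rw [hg, t0_apply]; exact Prod.ext (by ring) rfl
    rwa [this]

theorem second_mem {S : Subgroup (Equiv.Perm Pl)} {g : Equiv.Perm Pl} {b : ZMod 4}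
    (hb : b * b = 1) (hs : b = 1 ∨ t2 ∈ S) (hg : ∀ z : Pl, g z = (z.1, b * z.2)) : g ∈ S := by
  rcases unit_cases hb with rfl | rfl
  · have : g = 1 := Equiv.ext fun z => by rw [hg]; exact Prod.ext rfl (by simp)
    rw [this]; exact one_mem _
  · have h2 : t2 ∈ S := by
      rcases hs with h | h
      · exact absurd h (by decide)
      · exact h
    have : g = t2 := Equiv.ext fun z => by
      rw [hg, t2_apply]; exact Prod.ext rfl (by ring)
    rwa [this]

/-- The map `(X, Y) ↦ (u + a X, v + b Y)` as a permutation. -/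
def lin (u v a b : ZMod 4) (ha : a * a = 1) (hb : b * b = 1) : Equiv.Perm Pl where
  toFun z := (u + a * z.1, v + b * z.2)
  invFun z := (a * (z.1 - u), b * (z.2 - v))
  left_inv z := Prod.ext (by linear_combination z.1 * ha) (by linear_combination z.2 * hb)
  right_inv z := Prod.ext (by linear_combination (z.1 - u) * ha)
    (by linear_combination (z.2 - v) * hb)

/-- Key lemma: the subgroup generated by the generators with index in `I` consists of the elements
of the group that fix the points of the base flag with index outside `I`. -/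
theorem mem_of_fix {I : Set (Fin 3)} {g : Equiv.Perm Pl} (hg : g ∈ Gam torus)
    (hfix : ∀ j ∉ I, g (flagPt j) = flagPt j) : g ∈ Subgroup.closure (torus '' I) := by
  set S := Subgroup.closure (torus '' I) with hS
  have m0 : (0 : Fin 3) ∈ I → t0 ∈ S := fun h => Subgroup.subset_closure ⟨0, h, rfl⟩
  have m1 : (1 : Fin 3) ∈ I → t1 ∈ S := fun h => Subgroup.subset_closure ⟨1, h, rfl⟩
  have m2 : (2 : Fin 3) ∈ I → t2 ∈ S := fun h => Subgroup.subset_closure ⟨2, h, rfl⟩
  by_cases c0 : (0 : Fin 3) ∈ I
  · by_cases c1 : (1 : Fin 3) ∈ I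
    · by_cases c2 : (2 : Fin 3) ∈ I
      · have : I = Set.univ := by
          ext i; fin_cases i <;> simpa
        rw [hS, this, Set.image_univ]; exact hg
      · -- I = {0, 1}: g fixes (1, 1)
        have hf := hfix 2 c2
        obtain ⟨u, v, a, b, h | h⟩ := good_gam hg
        · obtain ⟨h1, h2, h3, h4, h5⟩ := h
          rw [h5] at hf
          have e1 : u + a = 1 := by
            have := congrArg Prod.fst hf; simpa [flagPt] using this
          have e2 : v + b = 1 := by
            have := congrArg Prod.snd hf; simpa [flagPt] using this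
          have f1 : lin u 0 a 1 h3 (by decide) ∈ S :=
            first_mem (m0 c0) h3 e1 fun z => Prod.ext rfl (by simp [lin])
          have f2 : lin v 0 b 1 h4 (by decide) ∈ S :=
            first_mem (m0 c0) h4 e2 fun z => Prod.ext rfl (by simp [lin])
          have : g = lin u 0 a 1 h3 (by decide) * (t1 * lin v 0 b 1 h4 (by decide) * t1) := by
            ext1 z
            rw [h5]
            exact Prod.ext (by simp [lin, t1_apply, Equiv.Perm.mul_apply])
              (by simp [lin, t1_apply, Equiv.Perm.mul_apply])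
          rw [this]
          exact mul_mem f1 (mul_mem (mul_mem (m1 c1) f2) (m1 c1))
        · obtain ⟨h1, h2, h3, h4, h5⟩ := h
          rw [h5] at hf
          have e1 : u + a = 1 := by
            have := congrArg Prod.fst hf; simpa [flagPt] using this
          have e2 : v + b = 1 := by
            have := congrArg Prod.snd hf; simpa [flagPt] using this
          have f1 : lin u 0 a 1 h3 (by decide) ∈ S :=
            first_mem (m0 c0) h3 e1 fun z => Prod.ext rfl (by simp [lin])
          have f2 : lin v 0 b 1 h4 (by decide) ∈ S :=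
            first_mem (m0 c0) h4 e2 fun z => Prod.ext rfl (by simp [lin])
          have : g = lin u 0 a 1 h3 (by decide) * (t1 * lin v 0 b 1 h4 (by decide)) := by
            ext1 z
            rw [h5]
            exact Prod.ext (by simp [lin, t1_apply, Equiv.Perm.mul_apply])
              (by simp [lin, t1_apply, Equiv.Perm.mul_apply])
          rw [this]
          exact mul_mem f1 (mul_mem (m1 c1) f2)
    · -- g fixes (1, 0)
      have hf := hfix 1 c1
      obtain ⟨u, v, a, b, h | h⟩ := good_gam hg
      · obtain ⟨h1, h2, h3, h4, h5⟩ := h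
        have hf' := hf
        rw [h5] at hf'
        have e1 : u + a = 1 := by
          have := congrArg Prod.fst hf'; simpa [flagPt] using this
        have e2 : v = 0 := by
          have := congrArg Prod.snd hf'; simpa [flagPt] using this
        subst e2
        have f1 : lin u 0 a 1 h3 (by decide) ∈ S :=
          first_mem (m0 c0) h3 e1 fun z => Prod.ext rfl (by simp [lin])
        have f2 : lin 0 0 1 b (by decide) h4 ∈ S := by
          refine second_mem h4 ?_ fun z => Prod.ext (by simp [lin]) (by simp [lin])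
          by_cases c2 : (2 : Fin 3) ∈ I
          · exact Or.inr (m2 c2)
          · left
            have hf2 := hfix 2 c2
            rw [h5] at hf2
            have := congrArg Prod.snd hf2; simpa [flagPt] using this
        have : g = lin u 0 a 1 h3 (by decide) * lin 0 0 1 b (by decide) h4 := by
          ext1 z
          rw [h5]
          exact Prod.ext (by simp [lin, Equiv.Perm.mul_apply])
            (by simp [lin, Equiv.Perm.mul_apply])
        rw [this]
        exact mul_mem f1 f2
      · obtain ⟨h1, h2, h3, h4, h5⟩ := h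
        rw [h5] at hf
        exfalso
        have e1 : u = 1 := by
          have := congrArg Prod.fst hf; simpa [flagPt] using this
        subst e1
        exact absurd h1 (by decide)
  · -- g fixes (0, 0)
    have hf := hfix 0 c0
    obtain ⟨u, v, a, b, h | h⟩ := good_gam hg
    · obtain ⟨h1, h2, h3, h4, h5⟩ := h
      have hf' := hf
      rw [h5] at hf'
      have e1 : u = 0 := by
        have := congrArg Prod.fst hf'; simpa [flagPt] using this
      have e2 : v = 0 := by
        have := congrArg Prod.snd hf'; simpa [flagPt] using this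
      subst e1; subst e2
      have hb : b = 1 ∨ t2 ∈ S := by
        by_cases c2 : (2 : Fin 3) ∈ I
        · exact Or.inr (m2 c2)
        · left
          have hf2 := hfix 2 c2
          rw [h5] at hf2
          have := congrArg Prod.snd hf2; simpa [flagPt] using this
      have ha : a = 1 ∨ (t1 ∈ S ∧ (a = 1 ∨ t2 ∈ S)) := by
        by_cases c1 : (1 : Fin 3) ∈ I
        · right
          refine ⟨m1 c1, ?_⟩
          by_cases c2 : (2 : Fin 3) ∈ I
          · exact Or.inr (m2 c2)
          · left
            have hf2 := hfix 2 c2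
            rw [h5] at hf2
            have := congrArg Prod.fst hf2; simpa [flagPt] using this
        · left
          have hf2 := hfix 1 c1
          rw [h5] at hf2
          have := congrArg Prod.fst hf2; simpa [flagPt] using this
      have f2 : lin 0 0 1 b (by decide) h4 ∈ S :=
        second_mem h4 hb fun z => Prod.ext (by simp [lin]) (by simp [lin])
      rcases ha with rfl | ⟨ht1, ha'⟩
      · have : g = lin 0 0 1 b (by decide) h4 := by
          ext1 z; rw [h5]; rfl
        rwa [this]
      · have f1 : lin 0 0 1 a (by decide) h3 ∈ S :=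
          second_mem h3 ha' fun z => Prod.ext (by simp [lin]) (by simp [lin])
        have : g = (t1 * lin 0 0 1 a (by decide) h3 * t1) * lin 0 0 1 b (by decide) h4 := by
          ext1 z
          rw [h5]
          exact Prod.ext (by simp [lin, t1_apply, Equiv.Perm.mul_apply])
            (by simp [lin, t1_apply, Equiv.Perm.mul_apply])
        rw [this]
        exact mul_mem (mul_mem (mul_mem ht1 f1) ht1) f2
    · obtain ⟨h1, h2, h3, h4, h5⟩ := h
      have hf' := hf
      rw [h5] at hf'
      have e1 : u = 0 := by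
        have := congrArg Prod.fst hf'; simpa [flagPt] using this
      have e2 : v = 0 := by
        have := congrArg Prod.snd hf'; simpa [flagPt] using this
      subst e1; subst e2
      have c1 : (1 : Fin 3) ∈ I := by
        by_contra c1
        have hf2 := hfix 1 c1
        rw [h5] at hf2
        have := congrArg Prod.fst hf2
        simp [flagPt] at this
        exact absurd this (by decide)
      have ha : a = 1 ∨ t2 ∈ S := by
        by_cases c2 : (2 : Fin 3) ∈ I
        · exact Or.inr (m2 c2)
        · left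
          have hf2 := hfix 2 c2
          rw [h5] at hf2
          have := congrArg Prod.fst hf2; simpa [flagPt] using this
      have hb : b = 1 ∨ t2 ∈ S := by
        by_cases c2 : (2 : Fin 3) ∈ I
        · exact Or.inr (m2 c2)
        · left
          have hf2 := hfix 2 c2
          rw [h5] at hf2
          have := congrArg Prod.snd hf2; simpa [flagPt] using this
      have f1 : lin 0 0 1 a (by decide) h3 ∈ S :=
        second_mem h3 ha fun z => Prod.ext (by simp [lin]) (by simp [lin])
      have f2 : lin 0 0 1 b (by decide) h4 ∈ S :=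
        second_mem h4 hb fun z => Prod.ext (by simp [lin]) (by simp [lin])
      have : g = (t1 * lin 0 0 1 a (by decide) h3 * t1) * (lin 0 0 1 b (by decide) h4 * t1) := by
        ext1 z
        rw [h5]
        exact Prod.ext (by simp [lin, t1_apply, Equiv.Perm.mul_apply])
          (by simp [lin, t1_apply, Equiv.Perm.mul_apply])
      rw [this]
      exact mul_mem (mul_mem (mul_mem (m1 c1) f1) (m1 c1)) (mul_mem f2 (m1 c1))

theorem torus_sq (i : Fin 3) : torus i * torus i = 1 := by
  ext1 z
  fin_cases i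
  · exact Prod.ext (show (2 : ZMod 4) - (2 - z.1) = z.1 by ring) rfl
  · rfl
  · exact Prod.ext rfl (show - -z.2 = z.2 by ring)

theorem torus_ne (i : Fin 3) : torus i ≠ 1 := by
  intro h
  have h1 : torus i (0, 1) = (0, 1) := by rw [h]; rfl
  revert h1
  revert i
  decide

theorem torus_cgroup : IsStringCGroup torus where
  invol i := by
    have : Fact (Nat.Prime 2) := ⟨Nat.prime_two⟩
    exact orderOf_eq_prime (by rw [sq, torus_sq]) (torus_ne i)
  comm i j h := by
    have hi : i = 0 := by apply Fin.ext; have := j.isLt; simp only [Fin.val_zero]; omega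
    have hj : j = 2 := by apply Fin.ext; have := j.isLt; have := i.isLt; subst hi; simp at h ⊢; omega
    subst hi; subst hj
    ext1 z
    rfl
  inter I J := by
    apply le_antisymm
    · rintro g ⟨h1, h2⟩
      refine mem_of_fix (closure_le_gam _ _ h1) fun j hj => ?_
      by_cases hI : j ∈ I
      · exact fix_of_mem h2 fun hJ => hj ⟨hI, hJ⟩
      · exact fix_of_mem h1 hI
    · exact le_inf (Subgroup.closure_mono (Set.image_mono Set.inter_subset_left))
        (Subgroup.closure_mono (Set.image_mono Set.inter_subset_right))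

/-- The duality `(X, Y) ↦ (1 - Y, 1 - X)`. -/
def dual : Equiv.Perm Pl :=
  Function.Involutive.toPerm (fun z => (1 - z.2, 1 - z.1))
    (fun z => Prod.ext (by ring) (by ring))

theorem torus_selfDual : SelfDual torus := by
  refine selfDual_of (MulAut.conj dual) ?_
  intro i
  rw [MulAut.conj_apply]
  have hinv : dual⁻¹ = dual := rfl
  rw [hinv]
  ext1 z
  fin_cases i
  · exact Prod.ext (show (1 : ZMod 4) - (1 - z.1) = z.1 by ring)
      (show (1 : ZMod 4) - (2 - (1 - z.2)) = -z.2 by ring)
  · exact Prod.ext (show (1 : ZMod 4) - (1 - z.2) = z.2 by ring)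
      (show (1 : ZMod 4) - (1 - z.1) = z.1 by ring)
  · exact Prod.ext (show (1 : ZMod 4) - -(1 - z.1) = 2 - z.1 by ring)
      (show (1 : ZMod 4) - (1 - z.2) = z.2 by ring)

theorem gam_fix {g : Equiv.Perm Pl} (hg : g ∈ Gam torus) :
    ∃ u v : ZMod 4, 2 * u = 0 ∧ 2 * v = 0 ∧ g (0, 0) = (u, v) := by
  obtain ⟨u, v, a, b, ⟨h1, h2, _, _, h5⟩ | ⟨h1, h2, _, _, h5⟩⟩ := good_gam hg
  · exact ⟨u, v, h1, h2, by rw [h5]; simp⟩
  · exact ⟨u, v, h1, h2, by rw [h5]; simp⟩

theorem torus_flat : Flat torus := by
  intro h hh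
  have m0 : t0 ∈ Subgroup.closure (torus '' {i : Fin 3 | (i : ℕ) + 1 ≠ 3}) :=
    Subgroup.subset_closure ⟨0, by decide, rfl⟩
  have m1 : t1 ∈ Subgroup.closure (torus '' {i : Fin 3 | (i : ℕ) + 1 ≠ 3}) :=
    Subgroup.subset_closure ⟨1, by decide, rfl⟩
  have key : ∃ b ∈ Subgroup.closure (torus '' {i : Fin 3 | (i : ℕ) + 1 ≠ 3}),
      b (0, 0) = h⁻¹ (0, 0) := by
    obtain ⟨u, v, hu, hv, huv⟩ := gam_fix (inv_mem hh)
    rw [huv]
    rcases zero_cases hu with rfl | rfl <;> rcases zero_cases hv with rfl | rfl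
    · exact ⟨1, one_mem _, rfl⟩
    · exact ⟨t1 * t0 * t1, mul_mem (mul_mem m1 m0) m1, by decide⟩
    · exact ⟨t0, m0, by decide⟩
    · exact ⟨t0 * (t1 * t0 * t1), mul_mem m0 (mul_mem (mul_mem m1 m0) m1), by decide⟩
  obtain ⟨b, hb, hb0⟩ := key
  refine ⟨h * b, ?_, b⁻¹, inv_mem hb, by group⟩
  refine mem_of_fix (mul_mem hh (closure_le_gam _ _ hb)) fun j hj => ?_
  have hj0 : j = 0 := by
    apply Fin.ext
    simpa using hj
  subst hj0
  change (h * b) (0, 0) = (0, 0)
  rw [Equiv.Perm.mul_apply, hb0]
  exact Equiv.apply_symm_apply h _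

theorem torus_order01 : orderOf (torus 0 * torus 1) = 4 := by
  have : Fact (Nat.Prime 2) := ⟨Nat.prime_two⟩
  refine orderOf_eq_prime_pow (p := 2) (n := 1) ?_ ?_
  · intro h
    have h1 : ((torus 0 * torus 1) ^ 2 ^ 1) (0, 1) = (0, 1) := by rw [h]; rfl
    revert h1; decide
  · ext1 z
    revert z; decide

theorem torus_order12 : orderOf (torus 1 * torus 2) = 4 := by
  have : Fact (Nat.Prime 2) := ⟨Nat.prime_two⟩
  refine orderOf_eq_prime_pow (p := 2) (n := 1) ?_ ?_
  · intro h
    have h1 : ((torus 1 * torus 2) ^ 2 ^ 1) (0, 1) = (0, 1) := by rw [h]; rfl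
    revert h1; decide
  · ext1 z
    revert z; decide

end torus

/-- The tuple `k` occurs as medial section of an internally self-dual string C-group of rank
`m + 2` (in the universe `u`). -/
def IsMedialSection.{u, v} {H : Type v} [Group H] {m : ℕ} (k : Fin m → H) : Prop :=
  ∃ (G : Type u) (_ : Group G) (r : Fin (m + 2) → G),
    IsStringCGroup r ∧ InternallySelfDual r ∧ Isomorphic (mid r) k

/-- **Main theorem.**  (1) A flat string C-group of rank `m ≥ 1` is not the medial section of an
internally self-dual string C-group of rank `m + 2`.  (2) The group of `{4,4}_{(2,0)}` is a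
self-dual string C-group of rank `3` and type `{4,4}` that is not the medial section of any
internally self-dual string C-group of rank `5`.  (3) For every `n ≥ 4` there is a self-dual string
C-group of rank `n - 2` that is not the medial section of any internally self-dual string C-group
of rank `n`. -/
theorem result.{u, v} :
    (∀ (m : ℕ) (H : Type v) (_ : Group H) (k : Fin m → H), 1 ≤ m → Flat k →
      ¬ IsMedialSection.{u} k) ∧
    (IsStringCGroup torus ∧ SelfDual torus ∧ orderOf (torus 0 * torus 1) = 4 ∧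
      orderOf (torus 1 * torus 2) = 4 ∧ ¬ IsMedialSection.{u} torus) ∧
    (∀ m : ℕ, 2 ≤ m → ∃ (H : Type) (_ : Group H) (k : Fin m → H),
      IsStringCGroup k ∧ SelfDual k ∧ ¬ IsMedialSection.{u} k) := by
  have main : ∀ (m : ℕ) (H : Type _) (_ : Group H) (k : Fin m → H), 1 ≤ m → Flat k →
      ¬ IsMedialSection.{u} k := by
    rintro m H _ k hm hflat ⟨G, _, r, hr, hint, hiso⟩
    exact not_internal (by omega) hr (flat_of_iso hiso hflat) hint
  have main0 : ∀ (m : ℕ) (H : Type) (_ : Group H) (k : Fin m → H), 1 ≤ m → Flat k →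
      ¬ IsMedialSection.{u} k := by
    rintro m H _ k hm hflat ⟨G, _, r, hr, hint, hiso⟩
    exact not_internal (by omega) hr (flat_of_iso hiso hflat) hint
  refine ⟨main, ⟨torus_cgroup, torus_selfDual, torus_order01, torus_order12,
    main0 3 _ _ torus (by norm_num) torus_flat⟩, ?_⟩
  intro m hm
  exact ⟨_, inferInstance, ea m, ea_cgroup, ea_selfDual, main0 m _ _ _ (by omega) (ea_flat hm)⟩

end Pool.Agent.Results.MP_c85533_co.FlatMedialSections
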